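import Mathlib
import Pool.Agent.H.MP_019d96_al.B

namespace Pool.Agent.Results.MP_019d96_al.Counter

open Pool.Agent.H.MP_019d96_al

theorem result :
    ∃ (k : ℕ → ℕ) (G : Subgroup (Equiv.Perm (Vt k 0))) (w : FreeGroup (Fin 2)),
      (∀ n, 2 ≤ k n) ∧ G.FG ∧ IsBranch G ∧ w ≠ 1 ∧
      (∀ x y : G, ∃ m, iter w x y m = 1) ∧ ∃ g ∈ G, ¬ IsOfFinOrder g := by
  refine ⟨k, G 0, w, fun n => by unfold k u; omega, ?_, isBranch, w_ne, terminates,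
    d 0, d_mem 0, d_inf⟩
  exact (Subgroup.fg_iff _).2 ⟨{al 0, d 0}, rfl, Set.toFinite _⟩

end Pool.Agent.Results.MP_019d96_al.Counter
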